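import Pool.Agent.X14.SixKTerm

set_option autoImplicit false

namespace Pool.Agent.Results.MP_e70f96_nt.SixKMinusOne

open Finset Pool.Agent.H434R2 Pool.Agent.H434R2.PO

/-- rising factorial `(a)_k = a (a+1) ⋯ (a+k-1)` -/
def poch (a : ℚ) (k : ℕ) : ℚ := ∏ j ∈ range k, (a + j)

/-- `S(p) = ∑_{k=0}^{(p+1)/3} (6k-1) (-1/3)_k^4 (2k)! / (k!^4 (-2/3)_{2k})` -/
def S (p : ℕ) : ℚ :=
  ∑ k ∈ range ((p + 1) / 3 + 1),
    (6 * (k : ℚ) - 1) * (poch (-1 / 3) k ^ 4 * ((2 * k).factorial : ℚ) / ((k.factorial : ℚ) ^ 4 * poch (-2 / 3) (2 * k)))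

/-- `S(p) ≡ p (mod p^3)` in `ℤ_(p)` for every prime `p ≡ 2 (mod 3)`. -/
theorem result : ∀ p : ℕ, p.Prime → p % 3 = 2 → ¬ p ∣ ((S p - (p : ℚ)) / (p : ℚ) ^ 3).den := by
  intro p hpp h3
  have hp : Fact p.Prime := ⟨hpp⟩
  rcases hpp.eq_two_or_odd with h2 | hodd
  · -- the prime `2`
    subst h2
    have e : S 2 = -14 / 9 := by
      unfold S poch
      norm_num [sum_range_succ, prod_range_succ, Nat.factorial]
    rw [e]
    have e2 : ((-14 / 9 : ℚ) - ((2 : ℕ) : ℚ)) / ((2 : ℕ) : ℚ) ^ 3 = -4 / 9 := by norm_num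
    rw [e2]
    have e3 : (-4 / 9 : ℚ).den = 9 := by norm_num
    rw [e3]
    norm_num
  apply Pool.Agent.X14.not_dvd_den
  obtain ⟨m, hm⟩ : ∃ m, p + 1 = 6 * m := ⟨(p + 1) / 6, by omega⟩
  have h := Pool.Agent.X14.main_sum (p := p) (ε := -1) (Or.inr rfl) (m := m) (by omega)
  have e : S p = ∑ k ∈ range (2 * m + 1), (6 * (k : ℚ) + ((-1 : ℤ) : ℚ)) * ∏ j ∈ range k, Pool.Agent.X14.rr (-1) j := by
    unfold S
    rw [show (p + 1) / 3 = 2 * m by omega]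
    apply sum_congr rfl
    intro k _
    have := Pool.Agent.X14.sixk_term (ε := -1) (Or.inr rfl) k
    rw [← this]
    unfold poch Pool.Agent.X14.poch
    norm_num
    left
    ring
  rw [e]
  exact h

end Pool.Agent.Results.MP_e70f96_nt.SixKMinusOne
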